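import Pool.Agent.Q137.BN.Prod

/-! # Project BN, job INF -/

open H974 Q121.BN MeasureTheory

namespace Q137.BN

/-- the configuration equal to `S` on the list and to `B` off it -/
noncomputable def ovr (B : Cf) (L : List Vtx) (S : Vtx → Om3) : Cf := by
  classical exact fun x => if x ∈ L then (S x).1 else B x

theorem ovr_nil (B : Cf) (S : Vtx → Om3) : ovr B [] S = B := by
  funext x
  unfold ovr
  rw [if_neg (by simp)]

theorem ovr_cons (x : Vtx) (L : List Vtx) (hx : x ∉ L) (B : Cf) (S : Vtx → Om3) :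
    ovr B (x :: L) S = ovr (Function.update B x (S x).1) L S := by
  classical
  funext y
  unfold ovr
  by_cases hyx : y = x
  · subst hyx
    rw [if_pos List.mem_cons_self, if_neg hx, Function.update_self]
  · by_cases hy : y ∈ L
    · rw [if_pos (List.mem_cons_of_mem _ hy), if_pos hy]
    · rw [if_neg hy, if_neg (by simp [hyx, hy]), Function.update_of_ne hyx]

theorem meas_coord (x : Vtx) (a : Om3) : MeasurableSet {S : Vtx → Om3 | S x = a} := by
  have : {S : Vtx → Om3 | S x = a} = (fun S : Vtx → Om3 => S x) ⁻¹' {a} := rfl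
  rw [this]
  exact measurable_pi_apply x MeasurableSet.of_discrete

theorem ovr_split (x : Vtx) (L : List Vtx) (hx : x ∉ L) (B : Cf) (P : Cf → Prop) :
    {S : Vtx → Om3 | P (ovr B (x :: L) S)} =
      ⋃ a : Om3, ({S | S x = a} ∩ {S | P (ovr (Function.update B x a.1) L S)}) := by
  ext S
  rw [Set.mem_iUnion]
  constructor
  · intro h
    have h' : P (ovr B (x :: L) S) := h
    rw [ovr_cons x L hx] at h'
    exact ⟨S x, rfl, h'⟩
  · rintro ⟨a, h1, h2⟩
    have h1' : S x = a := h1
    have h2' : P (ovr (Function.update B x a.1) L S) := h2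
    show P (ovr B (x :: L) S)
    rw [ovr_cons x L hx, h1']
    exact h2'

theorem meas_ovr (L : List Vtx) (hL : L.Nodup) (P : Cf → Prop) (B : Cf) :
    MeasurableSet {S : Vtx → Om3 | P (ovr B L S)} := by
  induction L generalizing B with
  | nil =>
    simp only [ovr_nil]
    exact MeasurableSet.const _
  | cons x L ih =>
    rw [ovr_split x L (List.nodup_cons.mp hL).1]
    exact MeasurableSet.iUnion fun a => (meas_coord x a).inter (ih (List.nodup_cons.mp hL).2 _)

theorem meas_cyl (V : Finset Vtx) (T : Vtx → Om3) :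
    MeasurableSet {S : Vtx → Om3 | ∀ v ∈ V, S v = T v} := by
  have : {S : Vtx → Om3 | ∀ v ∈ V, S v = T v} = ⋂ v ∈ V, {S | S v = T v} := by
    ext S; simp
  rw [this]
  exact Finset.measurableSet_biInter _ fun v _ => meas_coord v _

theorem card_Om3 : Fintype.card Om3 = 4 := by decide

instance : IsProbabilityMeasure law3 := by
  unfold law3; infer_instance

theorem law_cyl (V : Finset Vtx) (T : Vtx → Om3) :
    law3.real {S : Vtx → Om3 | ∀ v ∈ V, S v = T v} = (1 / 4) ^ V.card := by
  have h1 : {S : Vtx → Om3 | ∀ v ∈ V, S v = T v} = Set.pi (↑V : Set Vtx) (fun v => {T v}) := by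
    ext S
    rw [Set.mem_pi]
    rfl
  rw [measureReal_def, h1]
  unfold law3
  rw [Measure.infinitePi_pi _ (fun _ _ => MeasurableSet.of_discrete), ENNReal.toReal_prod]
  have h2 : ∀ v ∈ V, ((PMF.uniformOfFintype Om3).toMeasure {T v}).toReal = 1 / 4 := by
    intro v _
    rw [PMF.toMeasure_apply_singleton _ _ MeasurableSet.of_discrete, PMF.uniformOfFintype_apply,
      card_Om3]
    norm_num
  rw [Finset.prod_congr rfl h2, Finset.prod_const]

theorem sum_mu3_mul (g : Om → ℝ) : ∑ a : Om, mu3 a * g a = ∑ a : Om3, (1 / 4) * g a.1 := by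
  have h1 : ∑ a : Om, mu3 a * g a =
      ∑ a ∈ Finset.univ.filter (fun a : Om => a.card = 3), (1 / 4) * g a := by
    rw [Finset.sum_filter]
    refine Finset.sum_congr rfl fun a _ => ?_
    unfold mu3
    split_ifs
    · rfl
    · rw [zero_mul]
  rw [h1]
  exact Finset.sum_subtype _ (fun a => by simp) (fun a => (1 / 4) * g a)

theorem law_ovr (P : Cf → Prop) (L : List Vtx) : ∀ (_ : L.Nodup) (V : Finset Vtx)
    (T : Vtx → Om3) (_ : ∀ x ∈ L, x ∉ V) (B : Cf),
    law3.real ({S | ∀ v ∈ V, S v = T v} ∩ {S | P (ovr B L S)}) =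
      (1 / 4) ^ V.card * Ev (fun _ => mu3) L (fun A => ind (P A)) B := by
  classical
  induction L with
  | nil =>
    intro _ V T _ B
    simp only [ovr_nil, Ev]
    by_cases hP : P B
    · have : {S : Vtx → Om3 | P B} = Set.univ := by
        ext S; exact ⟨fun _ => trivial, fun _ => hP⟩
      rw [this, Set.inter_univ, law_cyl, ind_of hP, mul_one]
    · have : {S : Vtx → Om3 | P B} = ∅ := by
        ext S; exact ⟨fun h => hP h, fun h => h.elim⟩
      rw [this, Set.inter_empty, ind_not_of hP, mul_zero]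
      simp
  | cons x L ih =>
    intro hL V T hV B
    have hx : x ∉ L := (List.nodup_cons.mp hL).1
    have hL' := (List.nodup_cons.mp hL).2
    have hxV : x ∉ V := hV x List.mem_cons_self
    have hset : {S : Vtx → Om3 | ∀ v ∈ V, S v = T v} ∩ {S | P (ovr B (x :: L) S)} =
        ⋃ a ∈ (Finset.univ : Finset Om3),
          ({S | ∀ v ∈ insert x V, S v = Function.update T x a v} ∩
            {S | P (ovr (Function.update B x a.1) L S)}) := by
      rw [ovr_split x L hx]
      ext S
      simp only [Set.mem_inter_iff, Set.mem_iUnion, Finset.mem_univ, exists_true_left]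
      constructor
      · rintro ⟨h1, a, h2, h3⟩
        refine ⟨a, ?_, h3⟩
        intro v hv
        rcases Finset.mem_insert.mp hv with h | h
        · rw [h, Function.update_self]; exact h2
        · rw [Function.update_of_ne (fun h' : v = x => hxV (h' ▸ h))]
          exact h1 v h
      · rintro ⟨a, h1, h3⟩
        refine ⟨?_, a, ?_, h3⟩
        · intro v hv
          have := h1 v (Finset.mem_insert_of_mem hv)
          rwa [Function.update_of_ne (fun h' : v = x => hxV (h' ▸ hv))] at this
        · have := h1 x (Finset.mem_insert_self _ _)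
          rwa [Function.update_self] at this
    rw [hset, measureReal_biUnion_finset]
    · have h1 : ∀ a ∈ (Finset.univ : Finset Om3),
          law3.real ({S | ∀ v ∈ insert x V, S v = Function.update T x a v} ∩
            {S | P (ovr (Function.update B x a.1) L S)}) =
          (1 / 4) ^ V.card * ((1 / 4) *
            Ev (fun _ => mu3) L (fun A => ind (P A)) (Function.update B x a.1)) := by
        intro a _
        rw [ih hL' (insert x V) (Function.update T x a) (fun y hy => ?_),
          Finset.card_insert_of_notMem hxV, pow_succ]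
        · ring
        · rw [Finset.mem_insert]; push Not
          exact ⟨fun h => hx (h ▸ hy), hV y (List.mem_cons_of_mem _ hy)⟩
      rw [Finset.sum_congr rfl h1, ← Finset.mul_sum]
      congr 1
      simp only [Ev]
      rw [sum_mu3_mul]
    · intro a _ b _ hab
      rw [Function.onFun, Set.disjoint_left]
      rintro S ⟨h1, -⟩ ⟨h2, -⟩
      have e1 := h1 x (Finset.mem_insert_self _ _)
      have e2 := h2 x (Finset.mem_insert_self _ _)
      rw [Function.update_self] at e1 e2
      exact hab (e1.symm.trans e2)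
    · intro a _
      exact (meas_cyl _ _).inter (meas_ovr L hL' P _)

/-- the configuration of the infinite sample -/
def cfS (S : Vtx → Om3) : Cf := fun x => (S x).1

theorem bn_adj (S : Vtx → Om3) (u v : Vtx) : (bnG S).Adj u v ↔ H974.Adj (opn (cfS S)) u v := by
  constructor
  · rintro ⟨i, h1, h2, rfl⟩
    obtain ⟨x, y⟩ := u
    fin_cases i
    · refine ⟨(x, y, true), ⟨?_, ?_⟩, Or.inl ⟨rfl, ?_⟩⟩
      · exact h1
      · simpa [cfS, nb, dir, op] using h2
      · simp [nb, dir]
    · refine ⟨(x, y, false), ⟨?_, ?_⟩, Or.inl ⟨rfl, ?_⟩⟩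
      · exact h1
      · simpa [cfS, nb, dir, op] using h2
      · simp [nb, dir]
    · refine ⟨(x - 1, y, true), ⟨?_, ?_⟩, Or.inr ⟨?_, ?_⟩⟩
      · have : op (2 : Fin 4) = 0 := by decide
        simp only [Fin.reduceFinMk] at h2
        rw [this] at h2
        simpa [cfS, nb, dir, sub_eq_add_neg] using h2
      · simpa [cfS] using h1
      · simp [nb, dir, sub_eq_add_neg]
      · simp
    · refine ⟨(x, y - 1, false), ⟨?_, ?_⟩, Or.inr ⟨?_, ?_⟩⟩
      · have : op (3 : Fin 4) = 1 := by decide
        simp only [Fin.reduceFinMk] at h2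
        rw [this] at h2
        simpa [cfS, nb, dir, sub_eq_add_neg] using h2
      · simpa [cfS] using h1
      · simp [nb, dir, sub_eq_add_neg]
      · simp
  · rintro ⟨⟨x, y, b⟩, ⟨h1, h2⟩, h3⟩
    cases b
    · rcases h3 with ⟨rfl, rfl⟩ | ⟨rfl, rfl⟩
      · refine ⟨1, h1, ?_, ?_⟩
        · have : op (1 : Fin 4) = 3 := by decide
          rw [this]; exact h2
        · simp [nb, dir]
      · refine ⟨3, h2, ?_, ?_⟩
        · have : op (3 : Fin 4) = 1 := by decide
          rw [this]; exact h1
        · simp [nb, dir]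
    · rcases h3 with ⟨rfl, rfl⟩ | ⟨rfl, rfl⟩
      · refine ⟨0, h1, ?_, ?_⟩
        · have : op (0 : Fin 4) = 2 := by decide
          rw [this]; exact h2
        · simp [nb, dir]
      · refine ⟨2, h2, ?_, ?_⟩
        · have : op (2 : Fin 4) = 0 := by decide
          rw [this]; exact h1
        · simp [nb, dir]

theorem bn_reach (S : Vtx → Om3) (u v : Vtx) :
    (bnG S).Reachable u v ↔ Reach (opn (cfS S)) u v := by
  rw [SimpleGraph.reachable_iff_reflTransGen]
  have : (bnG S).Adj = H974.Adj (opn (cfS S)) := by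
    funext u v
    exact propext (bn_adj S u v)
  rw [this]
  rfl

theorem infinite_iff' (S : Vtx → Om3) :
    {v | (bnG S).Reachable (0, 0) v}.Infinite ↔ ∀ n, ArmC n (cfS S) := by
  constructor
  · intro h n
    have hfin : (Set.Icc (-(n:ℤ)) n ×ˢ Set.Icc (-(n:ℤ)) n).Finite :=
      (Set.finite_Icc _ _).prod (Set.finite_Icc _ _)
    obtain ⟨v, hv, hv'⟩ := h.exists_notMem_finite hfin
    have hr : Reach (opn (cfS S)) (0, 0) v := (bn_reach S _ _).mp hv
    obtain ⟨w, k1, k2, k3⟩ := first_exit (a := -n) (b := n) (c := -n) (d := n)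
      (by unfold inR; simp) hr (by
        simp only [Set.mem_prod, Set.mem_Icc] at hv'
        omega)
    exact ⟨w, ⟨k1, k2⟩, k3⟩
  · intro h hfin
    have hb : ((fun v : ℤ × ℤ => |v.1| + |v.2|) '' {v | (bnG S).Reachable (0, 0) v}).Finite :=
      hfin.image _
    obtain ⟨N, hN⟩ := hb.bddAbove
    obtain ⟨v, hv, hr⟩ := h (N.toNat + 1)
    have hmem : v ∈ {v | (bnG S).Reachable (0, 0) v} :=
      (bn_reach S _ _).mpr (hr.mono Set.inter_subset_left)
    have h1 : |v.1| + |v.2| ≤ N := hN (Set.mem_image_of_mem _ hmem)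
    have h2 := abs_nonneg v.1
    have h3 := abs_nonneg v.2
    have h4 := le_abs_self v.1
    have h5 := le_abs_self v.2
    have h6 := neg_abs_le v.1
    have h7 := neg_abs_le v.2
    unfold onB at hv
    have h8 : N ≤ N.toNat := Int.self_le_toNat N
    push_cast at hv
    omega

theorem armC_anti {n m : ℕ} (h : n ≤ m) {A : Cf} (hA : ArmC m A) : ArmC n A := by
  obtain ⟨v, hv, hr⟩ := hA
  have h' : (n:ℤ) ≤ m := by exact_mod_cast h
  obtain ⟨w, k1, k2, k3⟩ := first_exit (G := opn A ∩ ↑(boxE m)) (a := -n) (b := n) (c := -n)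
    (d := n) (u := (0, 0)) (v := v) (by unfold inR; simp) hr (by unfold onB at hv; omega)
  refine ⟨w, ⟨k1, k2⟩, k3.mono ?_⟩
  rintro e ⟨⟨k4, -⟩, k5⟩
  exact ⟨k4, k5⟩

theorem armC_ovr (n : ℕ) (S : Vtx → Om3) :
    ArmC n (cfS S) ↔ ArmC n (ovr (fun _ => ∅) (bxV n).toList S) := by
  have : opn (cfS S) ∩ ↑(boxE n) =
      opn (ovr (fun _ => ∅) (bxV n).toList S) ∩ (↑(boxE n) : Set Edg) := by
    ext e
    simp only [Set.mem_inter_iff, Finset.mem_coe]
    refine and_congr_left fun he => ?_
    obtain ⟨l1, l2⟩ := boxE_ends he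
    have e1 : ovr (fun _ => ∅) (bxV n).toList S (src e) = cfS S (src e) := by
      unfold ovr
      rw [if_pos (Finset.mem_toList.mpr l1)]
      rfl
    have e2 : ovr (fun _ => ∅) (bxV n).toList S (tgt e) = cfS S (tgt e) := by
      unfold ovr
      rw [if_pos (Finset.mem_toList.mpr l2)]
      rfl
    show (_ ∈ cfS S (src e) ∧ _ ∈ cfS S (tgt e)) ↔
      (_ ∈ ovr (fun _ => ∅) (bxV n).toList S (src e) ∧
        _ ∈ ovr (fun _ => ∅) (bxV n).toList S (tgt e))
    rw [e1, e2]
  unfold ArmC
  rw [this]

theorem law_arm (n : ℕ) : law3.real {S | ArmC n (cfS S)} =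
    Ev (fun _ => mu3) (bxV n).toList (fun A => ind (ArmC n A)) (fun _ => ∅) := by
  have h := law_ovr (ArmC n) (bxV n).toList (Finset.nodup_toList _) ∅
    (fun _ => Classical.arbitrary _) (fun _ _ => Finset.notMem_empty _) (fun _ => ∅)
  rw [Finset.card_empty, pow_zero, one_mul] at h
  rw [← h]
  congr 1
  ext S
  simp only [Finset.notMem_empty, false_imp_iff, implies_true, Set.mem_inter_iff]
  constructor
  · intro h; exact ⟨trivial, (armC_ovr n S).mp h⟩
  · rintro ⟨-, h⟩; exact (armC_ovr n S).mpr h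

theorem meas_arm (n : ℕ) : MeasurableSet {S | ArmC n (cfS S)} := by
  have := meas_ovr (bxV n).toList (Finset.nodup_toList _) (ArmC n) (fun _ => ∅)
  have e : {S | ArmC n (cfS S)} = {S | ArmC n (ovr (fun _ => ∅) (bxV n).toList S)} := by
    ext S; exact armC_ovr n S
  rw [e]; exact this

/-- **Job INF** -/
theorem inf : S_Inf := by
  intro c hc
  have heq : {S | {v | (bnG S).Reachable (0, 0) v}.Infinite} = ⋂ n, {S | ArmC n (cfS S)} := by
    ext S
    rw [Set.mem_iInter]
    exact infinite_iff' S
  rw [heq]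
  have h1 : Filter.Tendsto (fun n => law3 {S | ArmC n (cfS S)}) Filter.atTop
      (nhds (law3 (⋂ n, {S | ArmC n (cfS S)}))) := by
    apply tendsto_measure_iInter_atTop
    · intro n
      exact (meas_arm n).nullMeasurableSet
    · intro n m hnm S hS
      exact armC_anti hnm hS
    · exact ⟨0, measure_ne_top _ _⟩
  have h2 : Filter.Tendsto (fun n => law3.real {S | ArmC n (cfS S)}) Filter.atTop
      (nhds (law3.real (⋂ n, {S | ArmC n (cfS S)}))) :=
    (ENNReal.tendsto_toReal (measure_ne_top _ _)).comp h1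
  apply ge_of_tendsto' h2
  intro n
  rw [law_arm]
  exact hc n

end Q137.BN
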