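import Pool.Agent.Q121.BN.Basic

/-! # Project BN, jobs PHI and PHM -/

open H974 Q121.BN

namespace Q137.BN

/-- probability to miss a set -/
noncomputable def miss (l : Om → ℝ) (X : Om) : ℝ := ∑ a : Om, l a * ind (¬ (a ∩ X).Nonempty)

theorem miss_eq (l : Om → ℝ) (X : Om) : miss l X = ∑ a ∈ (Finset.univ \ X).powerset, l a := by
  unfold miss
  have h1 : (Finset.univ \ X).powerset = Finset.univ.filter (fun a : Om => ¬ (a ∩ X).Nonempty) := by
    ext a
    simp only [Finset.mem_powerset, Finset.mem_filter, Finset.mem_univ, true_and,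
      Finset.not_nonempty_iff_eq_empty]
    rw [← Finset.disjoint_iff_inter_eq_empty]
    constructor
    · intro h
      exact Finset.disjoint_left.mpr fun x hx hX => (Finset.mem_sdiff.mp (h hx)).2 hX
    · intro h x hx
      exact Finset.mem_sdiff.mpr ⟨Finset.mem_univ _, fun hX => Finset.disjoint_left.mp h hx hX⟩
  rw [h1, Finset.sum_filter]
  refine Finset.sum_congr rfl fun a _ => ?_
  by_cases h : (a ∩ X).Nonempty
  · rw [if_neg (not_not.mpr h), ind_not_of (not_not.mpr h), mul_zero]
  · rw [if_pos h, ind_of h, mul_one]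

theorem card_compl' (X : Om) : (Finset.univ \ X).card = 4 - X.card := by
  rw [Finset.card_sdiff_of_subset (Finset.subset_univ _)]
  simp

theorem card_le4 (X : Om) : X.card ≤ 4 := by
  have := Finset.card_le_univ X
  simpa using this

theorem miss_nu (r : ℝ) (X : Om) : miss (nu r) X = (1 - r) ^ X.card := by
  rw [miss_eq]
  have h := Finset.sum_pow_mul_eq_add_pow r (1 - r) (Finset.univ \ X)
  have hc := card_compl' X
  have h4 := card_le4 X
  have h2 : ∀ a ∈ (Finset.univ \ X).powerset, nu r a =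
      (1 - r) ^ X.card * (r ^ a.card * (1 - r) ^ ((Finset.univ \ X).card - a.card)) := by
    intro a ha
    have ha' := Finset.card_le_card (Finset.mem_powerset.mp ha)
    unfold nu
    have : 4 - a.card = X.card + ((Finset.univ \ X).card - a.card) := by omega
    rw [this, pow_add]
    ring
  rw [Finset.sum_congr rfl h2, ← Finset.mul_sum, h]
  simp

/-- miss probabilities of the 3-neighbour law -/
noncomputable def m3 (k : ℕ) : ℝ := ((4 - k).choose 3 : ℕ) / 4

theorem miss_mu3 (X : Om) : miss mu3 X = m3 X.card := by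
  rw [miss_eq]
  unfold mu3 m3
  rw [← Finset.sum_filter]
  have : (Finset.univ \ X).powerset.filter (fun a : Om => a.card = 3) =
      Finset.powersetCard 3 (Finset.univ \ X) := by
    ext a
    simp [Finset.mem_powersetCard]
  rw [this, Finset.sum_const, Finset.card_powersetCard, card_compl', nsmul_eq_mul]
  ring

theorem m3_0 : m3 0 = 1 := by norm_num [m3, Nat.choose]
theorem m3_1 : m3 1 = 1 / 4 := by norm_num [m3, Nat.choose]
theorem m3_ge {k : ℕ} (h : 2 ≤ k) : m3 k = 0 := by
  unfold m3
  have : (4 - k).choose 3 = 0 := Nat.choose_eq_zero_of_lt (by omega)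
  rw [this]; simp

theorem sum_nu (r : ℝ) : ∑ a : Om, nu r a = 1 := by
  have h := miss_nu r ∅
  rw [miss_eq] at h
  simpa using h

theorem sum_mu3 : ∑ a : Om, mu3 a = 1 := by
  have h := miss_mu3 ∅
  rw [miss_eq] at h
  simp only [Finset.card_empty, m3_0] at h
  simpa using h

theorem phi_TT {l : Om → ℝ} (hl : ∑ a : Om, l a = 1) {p q : Prop} (hp : p) (hq : q) (I J : Om) :
    phi l p q I J = 1 := by
  unfold phi
  rw [← hl]
  refine Finset.sum_congr rfl fun a _ => ?_
  rw [ind_of ⟨Or.inl hp, Or.inl hq⟩, mul_one]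

theorem phi_TF {l : Om → ℝ} (hl : ∑ a : Om, l a = 1) {p q : Prop} (hp : p) (hq : ¬ q) (I J : Om) :
    phi l p q I J = 1 - miss l J := by
  unfold phi miss
  rw [← hl, ← Finset.sum_sub_distrib]
  refine Finset.sum_congr rfl fun a _ => ?_
  rw [ind_not]
  have : ind ((p ∨ (a ∩ I).Nonempty) ∧ (q ∨ (a ∩ J).Nonempty)) = ind ((a ∩ J).Nonempty) :=
    ind_congr (by simp [hp, hq])
  rw [this]; ring

theorem phi_FT {l : Om → ℝ} (hl : ∑ a : Om, l a = 1) {p q : Prop} (hp : ¬ p) (hq : q) (I J : Om) :
    phi l p q I J = 1 - miss l I := by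
  unfold phi miss
  rw [← hl, ← Finset.sum_sub_distrib]
  refine Finset.sum_congr rfl fun a _ => ?_
  rw [ind_not]
  have : ind ((p ∨ (a ∩ I).Nonempty) ∧ (q ∨ (a ∩ J).Nonempty)) = ind ((a ∩ I).Nonempty) :=
    ind_congr (by simp [hp, hq])
  rw [this]; ring

theorem phi_FF {l : Om → ℝ} (hl : ∑ a : Om, l a = 1) {p q : Prop} (hp : ¬ p) (hq : ¬ q)
    (I J : Om) :
    phi l p q I J = 1 - miss l I - miss l J + miss l (I ∪ J) := by
  unfold phi miss
  rw [← hl, ← Finset.sum_sub_distrib, ← Finset.sum_sub_distrib, ← Finset.sum_add_distrib]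
  refine Finset.sum_congr rfl fun a _ => ?_
  have h1 : ind ((p ∨ (a ∩ I).Nonempty) ∧ (q ∨ (a ∩ J).Nonempty)) =
      ind ((a ∩ I).Nonempty) * ind ((a ∩ J).Nonempty) := by
    rw [← ind_and]
    exact ind_congr (by simp [hp, hq])
  have h2 : ind (¬ (a ∩ (I ∪ J)).Nonempty) =
      ind (¬ (a ∩ I).Nonempty) * ind (¬ (a ∩ J).Nonempty) := by
    rw [← ind_and]
    apply ind_congr
    simp only [Finset.inter_union_distrib_left, Finset.not_nonempty_iff_eq_empty,
      Finset.union_eq_empty]
  rw [h1, h2, ind_not, ind_not]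
  ring

theorem r0_sq : r0 ^ 2 = 1 / 2 := by
  unfold r0; rw [Real.sq_sqrt (by norm_num)]

theorem r0_nonneg : 0 ≤ r0 := Real.sqrt_nonneg _

theorem r0_gt : (0.7071 : ℝ) < r0 := by
  have := r0_sq
  have h := r0_nonneg
  by_contra hc
  push Not at hc
  nlinarith

theorem r0_lt : r0 < (0.70711 : ℝ) := by
  have := r0_sq
  by_contra hc
  push Not at hc
  nlinarith

/-- **Job PHI** -/
theorem phi_le : S_Phi := by
  intro p q I J hd
  have hcard : (I ∪ J).card = I.card + J.card := Finset.card_union_of_disjoint hd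
  have h4 := card_le4 (I ∪ J)
  rw [hcard] at h4
  have hr1 := r0_gt
  have hr2 := r0_lt
  have hs0 : 0 ≤ 1 - r0 := by linarith
  have hs1 : 1 - r0 ≤ 1 := by linarith
  -- one-sided
  have key1 : ∀ X : Om, m3 X.card ≤ (1 - r0) ^ X.card := by
    intro X
    rcases Nat.lt_or_ge X.card 2 with h | h
    · interval_cases hX : X.card
      · rw [m3_0]; simp
      · rw [m3_1, pow_one]; linarith
    · rw [m3_ge h]; positivity
  by_cases hp : p
  · by_cases hq : q
    · rw [phi_TT (sum_nu r0) hp hq, phi_TT sum_mu3 hp hq]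
    · rw [phi_TF (sum_nu r0) hp hq, phi_TF sum_mu3 hp hq, miss_nu, miss_mu3]
      linarith [key1 J]
  · by_cases hq : q
    · rw [phi_FT (sum_nu r0) hp hq, phi_FT sum_mu3 hp hq, miss_nu, miss_mu3]
      linarith [key1 I]
    · rw [phi_FF (sum_nu r0) hp hq, phi_FF sum_mu3 hp hq]
      simp only [miss_nu, miss_mu3, hcard]
      rw [pow_add]
      have hpow : ∀ k : ℕ, 0 ≤ (1 - r0) ^ k ∧ (1 - r0) ^ k ≤ 1 := fun k =>
        ⟨pow_nonneg hs0 k, pow_le_one₀ hs0 hs1⟩
      obtain ⟨hi0, hi1⟩ := hpow I.card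
      obtain ⟨hj0, hj1⟩ := hpow J.card
      have hsq := r0_sq
      rcases Nat.eq_zero_or_pos I.card with hI | hI
      · rw [hI, m3_0]; simp
      rcases Nat.eq_zero_or_pos J.card with hJ | hJ
      · rw [hJ, m3_0]; simp
      rcases Nat.eq_or_lt_of_le hI with hI | hI
      · rcases Nat.eq_or_lt_of_le hJ with hJ | hJ
        · have hI' : I.card = 1 := by omega
          have hJ' : J.card = 1 := by omega
          rw [hI', hJ', m3_1, m3_ge (le_refl (1 + 1))]
          simp only [pow_one]
          nlinarith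
        · have hI' : I.card = 1 := by omega
          rw [hI', m3_ge (show 2 ≤ J.card by omega), m3_ge (show 2 ≤ 1 + J.card by omega)]
          rw [m3_1, pow_one]
          nlinarith
      · rcases Nat.eq_or_lt_of_le hJ with hJ | hJ
        · have hJ' : J.card = 1 := by omega
          rw [hJ', m3_ge (show 2 ≤ I.card by omega), m3_ge (show 2 ≤ I.card + 1 by omega)]
          rw [m3_1, pow_one]
          nlinarith
        · rw [m3_ge (show 2 ≤ I.card by omega), m3_ge (show 2 ≤ J.card by omega),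
            m3_ge (show 2 ≤ I.card + J.card by omega)]
          nlinarith

theorem phi_mix (p q : Prop) (I J : Om) :
    phi mix p q I J = (1 / 2) * phi (nu r0) p q I J + (1 / 2) * phi mu3 p q I J := by
  unfold phi mix
  rw [Finset.mul_sum, Finset.mul_sum, ← Finset.sum_add_distrib]
  exact Finset.sum_congr rfl fun a _ => by ring

end Q137.BN
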