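import Pool.Agent.Q137.BN.Phi

/-! # Project BN, job PHM -/

open H974 Q121.BN

namespace Q137.BN

set_option linter.unusedSimpArgs false

theorem nu_lower {r : ℝ} (h1 : 0.7 ≤ r) (h2 : r ≤ 0.75) (a : Om) : 2 / 1000 ≤ nu r a := by
  unfold nu
  have h4 := card_le4 a
  have e1 : (0.25 : ℝ) ^ a.card ≤ r ^ a.card := pow_le_pow_left₀ (by norm_num) (by linarith) _
  have e2 : (0.25 : ℝ) ^ (4 - a.card) ≤ (1 - r) ^ (4 - a.card) :=
    pow_le_pow_left₀ (by norm_num) (by linarith) _
  have e3 : (0.25 : ℝ) ^ a.card * (0.25 : ℝ) ^ (4 - a.card) = 0.25 ^ 4 := by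
    rw [← pow_add]; congr 1; omega
  have e4 : (0.25 : ℝ) ^ a.card * (0.25 : ℝ) ^ (4 - a.card) ≤ r ^ a.card * (1 - r) ^ (4 - a.card) :=
    mul_le_mul e1 e2 (by positivity) (pow_nonneg (by linarith) _)
  rw [e3] at e4
  norm_num at e4 ⊢
  linarith

theorem pow_diff {s t : ℝ} (ht0 : 0 ≤ t) (hts : t ≤ s) (hs1 : s ≤ 1) (j : ℕ) (hj : j ≤ 4) :
    s ^ j - t ^ j ≤ 4 * (s - t) := by
  have hst : 0 ≤ s - t := by linarith
  have hs0 : 0 ≤ s := by linarith
  have ht1 : t ≤ 1 := by linarith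
  have key : ∀ k : ℕ, s ^ k - t ^ k ≤ k * (s - t) := by
    intro k
    induction k with
    | zero => simp
    | succ k ih =>
      have hk : 0 ≤ t ^ k := pow_nonneg ht0 k
      have hk1 : t ^ k ≤ 1 := pow_le_one₀ ht0 ht1
      have hks : t ^ k ≤ s ^ k := pow_le_pow_left₀ ht0 hts k
      have e : s ^ (k + 1) - t ^ (k + 1) = s * (s ^ k - t ^ k) + t ^ k * (s - t) := by ring
      rw [e]
      push_cast
      have e1 : s * (s ^ k - t ^ k) ≤ 1 * (s ^ k - t ^ k) :=
        mul_le_mul_of_nonneg_right hs1 (by linarith)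
      have e2 : t ^ k * (s - t) ≤ 1 * (s - t) := mul_le_mul_of_nonneg_right hk1 hst
      linarith
  have := key j
  have hj' : (j : ℝ) ≤ 4 := by exact_mod_cast hj
  nlinarith

theorem law_nu {r : ℝ} (h1 : 0.7 ≤ r) (h2 : r ≤ 0.75) : Law (1 / 1000) (nu r) :=
  ⟨fun a => by have := nu_lower h1 h2 a; linarith, sum_nu r⟩

theorem mu3_nonneg (a : Om) : 0 ≤ mu3 a := by
  unfold mu3; split_ifs <;> norm_num

theorem law_mix : Law (1 / 1000) mix := by
  refine ⟨fun a => ?_, ?_⟩
  · have h := nu_lower (r := r0) (by linarith [r0_gt]) (by linarith [r0_lt]) a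
    have := mu3_nonneg a
    unfold mix
    linarith
  · unfold mix
    rw [Finset.sum_add_distrib, ← Finset.mul_sum, ← Finset.mul_sum, sum_nu, sum_mu3]
    norm_num

/-- **Job PHM** -/
theorem phm : S_Phm := by
  refine ⟨1 / 80, by norm_num, fun ε hε => ?_⟩
  set η : ℝ := min (ε / 8) (1 / 5000) with hη
  have hη0 : 0 < η := lt_min (by linarith) (by norm_num)
  have hη1 : η ≤ ε / 8 := min_le_left _ _
  have hη2 : η ≤ 1 / 5000 := min_le_right _ _
  have hr1 := r0_gt
  have hr2 := r0_lt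
  have hsq := r0_sq
  refine ⟨r0 + η, by linarith, by linarith, law_nu (by linarith) (by linarith), law_mix, ?_⟩
  set s0 : ℝ := 1 - r0 with hs0
  set s1 : ℝ := 1 - (r0 + η) with hs1
  have hs1p : 0 ≤ s1 := by linarith
  have hs10 : s1 ≤ s0 := by linarith
  have hs0l : (0.29 : ℝ) ≤ s0 := by linarith
  have hs01 : s0 ≤ 1 := by linarith
  intro p q I J hd
  have hcard : (I ∪ J).card = I.card + J.card := Finset.card_union_of_disjoint hd
  have h4 := card_le4 (I ∪ J)
  rw [hcard] at h4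
  -- powers
  have hpd : ∀ j : ℕ, j ≤ 4 → s0 ^ j - s1 ^ j ≤ 4 * η := by
    intro j hj
    have := pow_diff hs1p hs10 hs01 j hj
    have e : s0 - s1 = η := by rw [hs0, hs1]; ring
    rwa [e] at this
  have hp1 : ∀ j : ℕ, 0 ≤ s1 ^ j ∧ s1 ^ j ≤ s0 ^ j ∧ s0 ^ j ≤ 1 := fun j =>
    ⟨pow_nonneg hs1p j, pow_le_pow_left₀ hs1p hs10 j, pow_le_one₀ (by linarith) hs01⟩
  have hs04 : ∀ j : ℕ, j ≤ 4 → (0.007 : ℝ) ≤ s0 ^ j := by
    intro j hj
    have e1 : s0 ^ 4 ≤ s0 ^ j := pow_le_pow_of_le_one (by linarith) hs01 hj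
    have e2 : (0.29 : ℝ) ^ 4 ≤ s0 ^ 4 := pow_le_pow_left₀ (by norm_num) hs0l 4
    norm_num at e2 ⊢
    linarith
  have one : ∀ X : Om, (1 / 2) * s0 ^ X.card + (1 / 2) * m3 X.card ≤ s1 ^ X.card := by
    intro X
    have hX := card_le4 X
    rcases Nat.lt_or_ge X.card 2 with h | h
    · interval_cases hX : X.card
      · rw [m3_0]; norm_num
      · rw [m3_1, pow_one, pow_one]
        have e : s0 - s1 = η := by rw [hs0, hs1]; ring
        linarith
    · rw [m3_ge h]
      have e1 := hpd X.card hX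
      have e2 := hs04 X.card hX
      linarith
  have hA : (p ∨ q ∨ I = ∅ ∨ J = ∅) → phi (nu (r0 + η)) p q I J ≤ phi mix p q I J := by
    intro h
    rw [phi_mix]
    by_cases hp : p
    · by_cases hq : q
      · rw [phi_TT (sum_nu _) hp hq, phi_TT (sum_nu _) hp hq, phi_TT sum_mu3 hp hq]
        norm_num
      · rw [phi_TF (sum_nu _) hp hq, phi_TF (sum_nu _) hp hq, phi_TF sum_mu3 hp hq]
        simp only [miss_nu, miss_mu3]
        have := one J
        rw [← hs0, ← hs1]
        linarith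
    · by_cases hq : q
      · rw [phi_FT (sum_nu _) hp hq, phi_FT (sum_nu _) hp hq, phi_FT sum_mu3 hp hq]
        simp only [miss_nu, miss_mu3]
        have := one I
        rw [← hs0, ← hs1]
        linarith
      · rw [phi_FF (sum_nu _) hp hq, phi_FF (sum_nu _) hp hq, phi_FF sum_mu3 hp hq]
        simp only [miss_nu, miss_mu3, hcard]
        rcases h with h | h | h | h
        · exact absurd h hp
        · exact absurd h hq
        · subst h
          simp [m3_0]
        · subst h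
          simp [m3_0]
  refine ⟨hA, ?_, ?_⟩
  · intro hI hJ
    by_cases hpq : p ∨ q
    · have := hA (by rcases hpq with h | h
                     · exact Or.inl h
                     · exact Or.inr (Or.inl h))
      linarith
    · push Not at hpq
      obtain ⟨hp, hq⟩ := hpq
      rw [phi_mix, phi_FF (sum_nu _) hp hq, phi_FF (sum_nu _) hp hq, phi_FF sum_mu3 hp hq]
      simp only [miss_nu, miss_mu3, hcard, hI, hJ]
      rw [← hs0, ← hs1]
      rw [m3_1, m3_ge (show 2 ≤ 1 + 1 by norm_num)]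
      norm_num only
      have e0 : s0 = 1 - r0 := hs0
      have e1 : s1 = s0 - η := by rw [hs0, hs1]; ring
      have e2 : s0 ^ 2 = 1 - 2 * r0 + 1 / 2 := by rw [e0, ← hsq]; ring
      have e3 : s1 ^ 2 = s0 ^ 2 - 2 * s0 * η + η ^ 2 := by rw [e1]; ring
      rw [e3, e2, e1, e0]
      nlinarith
  · intro hp hq hI hJ h3
    rw [phi_mix, phi_FF (sum_nu _) hp hq, phi_FF (sum_nu _) hp hq, phi_FF sum_mu3 hp hq]
    simp only [miss_nu, miss_mu3, hcard]
    rw [← hs0, ← hs1]
    have hI1 : 1 ≤ I.card := Finset.card_pos.mpr hI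
    have hJ1 : 1 ≤ J.card := Finset.card_pos.mpr hJ
    have e0 : s0 = 1 - r0 := hs0
    have e2 : s0 ^ 2 = 3 / 2 - 2 * r0 := by rw [e0]; linear_combination hsq
    have e3 : s0 ^ 3 = (1 - r0) * (3 / 2 - 2 * r0) := by rw [pow_succ, e2, e0]; ring
    have e3' : s0 ^ 3 = 5 / 2 - 7 / 2 * r0 := by rw [e3]; linear_combination 2 * hsq
    have e4 : s0 ^ 4 = 17 / 4 - 6 * r0 := by
      have : s0 ^ 4 = (s0 ^ 2) ^ 2 := by ring
      rw [this, e2]; linear_combination 4 * hsq
    -- lower bound of the difference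
    have hi := hpd I.card (by omega)
    have hj := hpd J.card (by omega)
    have hij := hp1 (I.card + J.card)
    generalize hci : I.card = i at *
    generalize hcj : J.card = j at *
    have hi4 : i ≤ 3 := by omega
    have hj4 : j ≤ 3 := by omega
    interval_cases i <;> interval_cases j <;> first
      | omega
      | (simp only [m3_1, m3_ge (show 2 ≤ 2 by norm_num), m3_ge (show 2 ≤ 3 by norm_num),
          m3_ge (show 2 ≤ 1 + 2 by norm_num), m3_ge (show 2 ≤ 1 + 3 by norm_num),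
          m3_ge (show 2 ≤ 2 + 1 by norm_num), m3_ge (show 2 ≤ 3 + 1 by norm_num),
          m3_ge (show 2 ≤ 2 + 2 by norm_num)] at *
         norm_num only at *
         try simp only [pow_one] at *
         linarith)

end Q137.BN
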