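import Pool.Agent.Q121.BN.Basic

/-! # Project BN, job PROD -/

open H974 Q121.BN

namespace Q137.BN

/-- the configuration read off a set of half-edges -/
noncomputable def conf (L : List Vtx) (B : Cf) (F : Finset (Vtx × Fin 4)) : Cf := by
  classical
  exact fun x => if x ∈ L then Finset.univ.filter (fun i => (x, i) ∈ F) else B x

/-- embedding of the directions at `x` -/
def emb (x : Vtx) : Fin 4 ↪ Vtx × Fin 4 := ⟨fun i => (x, i), fun i j h => by simpa using h⟩

theorem Ex_nu (r : ℝ) (h : Om → ℝ) :
    Ex (fun _ : Fin 4 => r) Finset.univ h = ∑ a : Om, nu r a * h a := by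
  unfold Ex nu
  rw [Finset.powerset_univ]
  refine Finset.sum_congr rfl fun a _ => ?_
  rw [Finset.prod_const, Finset.prod_const, Finset.card_sdiff_of_subset (Finset.subset_univ _)]
  simp

theorem conf_cons (x : Vtx) (L : List Vtx) (hx : x ∉ L) (B : Cf) (a : Om)
    (F : Finset (Vtx × Fin 4)) (hF : ∀ e ∈ F, e.1 ∈ L) :
    conf (x :: L) B (a.map (emb x) ∪ F) = conf L (Function.update B x a) F := by
  classical
  funext y
  unfold conf
  by_cases hyx : y = x
  · subst hyx
    rw [if_pos List.mem_cons_self, if_neg hx, Function.update_self]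
    ext i
    simp only [Finset.mem_filter, Finset.mem_univ, true_and, Finset.mem_union, Finset.mem_map]
    constructor
    · rintro (⟨j, hj, hj'⟩ | h)
      · have : j = i := by
          exact congrArg Prod.snd hj'
        rw [← this]; exact hj
      · exact absurd (hF _ h) hx
    · intro hi
      exact Or.inl ⟨i, hi, rfl⟩
  · by_cases hy : y ∈ L
    · rw [if_pos (List.mem_cons_of_mem _ hy), if_pos hy]
      ext i
      simp only [Finset.mem_filter, Finset.mem_univ, true_and, Finset.mem_union, Finset.mem_map]
      constructor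
      · rintro (⟨j, hj, hj'⟩ | h)
        · exfalso
          have := congrArg Prod.fst hj'
          simp only [emb] at this
          exact hyx this.symm
        · exact h
      · exact fun h => Or.inr h
    · rw [if_neg hy, if_neg (by simp [hyx, hy]), Function.update_of_ne hyx]

theorem Ev_eq_Ex (r : ℝ) (L : List Vtx) (hL : L.Nodup) (f : Cf → ℝ) (B : Cf) :
    Ev (fun _ => nu r) L f B =
      Ex (fun _ => r) (L.toFinset ×ˢ (Finset.univ : Finset (Fin 4))) (fun F => f (conf L B F)) := by
  classical
  induction L generalizing B with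
  | nil =>
    have : conf [] B ∅ = B := by
      funext x
      unfold conf
      rw [if_neg (by simp)]
    simp only [List.toFinset_nil, Finset.empty_product, Ex_empty, this]
    rfl
  | cons x L ih =>
    have hx : x ∉ L := (List.nodup_cons.mp hL).1
    have e1 : (x :: L).toFinset ×ˢ (Finset.univ : Finset (Fin 4)) =
        (Finset.univ.map (emb x)) ∪ (L.toFinset ×ˢ Finset.univ) := by
      ext ⟨y, i⟩
      simp only [Finset.mem_product, List.mem_toFinset, List.mem_cons, Finset.mem_univ, and_true,
        Finset.mem_union, Finset.mem_map, true_and]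
      constructor
      · rintro (h | h)
        · exact Or.inl ⟨i, by rw [h]; rfl⟩
        · exact Or.inr h
      · rintro (⟨j, hj⟩ | h)
        · left
          have := congrArg Prod.fst hj
          exact this.symm
        · exact Or.inr h
    have hd : Disjoint (Finset.univ.map (emb x)) (L.toFinset ×ˢ (Finset.univ : Finset (Fin 4))) := by
      rw [Finset.disjoint_left]
      rintro ⟨y, i⟩ h1 h2
      obtain ⟨j, -, hj⟩ := Finset.mem_map.mp h1
      have h3 := congrArg Prod.fst hj
      have h4 := (Finset.mem_product.mp h2).1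
      rw [List.mem_toFinset] at h4
      simp only [emb] at h3
      simp only at h4
      rw [← h3] at h4
      exact hx h4
    rw [e1, Ex_union hd, Ex_map, Ex_nu]
    simp only [Ev]
    refine Finset.sum_congr rfl fun a _ => ?_
    congr 1
    rw [ih (List.nodup_cons.mp hL).2]
    apply Ex_congr
    intro F hF
    rw [conf_cons x L hx B a F (fun e he => ?_)]
    have := (Finset.mem_product.mp (hF he)).1
    rwa [List.mem_toFinset] at this

/-- merging pairs of half-edges -/
theorem Ex_pairs {E H : Type*} [DecidableEq E] [DecidableEq H] (r : ℝ) (h1 h2 : E → H)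
    (hi1 : Function.Injective h1) (hi2 : Function.Injective h2) (h12 : ∀ e e', h1 e ≠ h2 e')
    (D : Finset E) (S : Finset H) (hS : ∀ e ∈ D, h1 e ∈ S ∧ h2 e ∈ S) (f : Finset E → ℝ) :
    Ex (fun _ => r) S (fun F => f (D.filter (fun e => h1 e ∈ F ∧ h2 e ∈ F))) =
      Ex (fun _ => r ^ 2) D f := by
  have main : ∀ (D : Finset E) (f : Finset E → ℝ),
      Ex (fun _ => r) (D.image h1 ∪ D.image h2)
        (fun F => f (D.filter (fun e => h1 e ∈ F ∧ h2 e ∈ F))) = Ex (fun _ => r ^ 2) D f := by
    intro D
    induction D using Finset.induction_on with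
    | empty => intro f; simp [Ex_empty]
    | insert e D he ih =>
      intro f
      have ha1 : h1 e ∉ D.image h1 := fun h => by
        obtain ⟨e', he', h'⟩ := Finset.mem_image.mp h
        exact he (hi1 h' ▸ he')
      have ha2 : h2 e ∉ D.image h2 := fun h => by
        obtain ⟨e', he', h'⟩ := Finset.mem_image.mp h
        exact he (hi2 h' ▸ he')
      have ha3 : h1 e ∉ D.image h2 := fun h => by
        obtain ⟨e', he', h'⟩ := Finset.mem_image.mp h
        exact h12 e e' h'.symm
      have ha4 : h2 e ∉ D.image h1 := fun h => by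
        obtain ⟨e', he', h'⟩ := Finset.mem_image.mp h
        exact h12 e' e h'
      have hset : (insert e D).image h1 ∪ (insert e D).image h2 =
          insert (h1 e) (insert (h2 e) (D.image h1 ∪ D.image h2)) := by
        rw [Finset.image_insert, Finset.image_insert]
        ext z
        simp only [Finset.mem_union, Finset.mem_insert]
        tauto
      have hb : h2 e ∉ D.image h1 ∪ D.image h2 := by
        rw [Finset.mem_union]; push Not; exact ⟨ha4, ha2⟩
      have ha : h1 e ∉ insert (h2 e) (D.image h1 ∪ D.image h2) := by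
        rw [Finset.mem_insert, Finset.mem_union]; push Not; exact ⟨h12 e e, ha1, ha3⟩
      rw [hset, Ex_insert _ ha, Ex_insert _ hb, Ex_insert _ hb, Ex_insert _ he]
      rw [← ih (fun X => f (insert e X)), ← ih f]
      -- the four functions
      have hne1 : ∀ e' ∈ D, h1 e' ≠ h1 e := fun e' he' h => he (hi1 h ▸ he')
      have hne2 : ∀ e' ∈ D, h2 e' ≠ h2 e := fun e' he' h => he (hi2 h ▸ he')
      have g11 : ∀ F, F ⊆ D.image h1 ∪ D.image h2 →
          f ((insert e D).filter (fun e' => h1 e' ∈ insert (h1 e) (insert (h2 e) F) ∧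
            h2 e' ∈ insert (h1 e) (insert (h2 e) F))) =
          f (insert e (D.filter (fun e' => h1 e' ∈ F ∧ h2 e' ∈ F))) := by
        intro F hF
        congr 1
        ext e'
        simp only [Finset.mem_filter, Finset.mem_insert]
        constructor
        · rintro ⟨h | h, h3, h4⟩
          · exact Or.inl h
          · right
            refine ⟨h, ?_, ?_⟩
            · rcases h3 with h3 | h3 | h3
              · exact absurd h3 (hne1 e' h)
              · exact absurd h3 (h12 _ _)
              · exact h3
            · rcases h4 with h4 | h4 | h4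
              · exact absurd h4.symm (h12 _ _)
              · exact absurd h4 (hne2 e' h)
              · exact h4
        · rintro (h | ⟨h, h3, h4⟩)
          · exact ⟨Or.inl h, by rw [h]; exact ⟨Or.inl rfl, Or.inr (Or.inl rfl)⟩⟩
          · exact ⟨Or.inr h, Or.inr (Or.inr h3), Or.inr (Or.inr h4)⟩
      have g10 : ∀ F, F ⊆ D.image h1 ∪ D.image h2 →
          f ((insert e D).filter (fun e' => h1 e' ∈ insert (h1 e) F ∧ h2 e' ∈ insert (h1 e) F)) =
          f (D.filter (fun e' => h1 e' ∈ F ∧ h2 e' ∈ F)) := by
        intro F hF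
        congr 1
        ext e'
        simp only [Finset.mem_filter, Finset.mem_insert]
        constructor
        · rintro ⟨h | h, h3, h4⟩
          · exfalso
            rw [h] at h4
            rcases h4 with h4 | h4
            · exact h12 _ _ h4.symm
            · exact hb (hF h4)
          · refine ⟨h, ?_, ?_⟩
            · rcases h3 with h3 | h3
              · exact absurd h3 (hne1 e' h)
              · exact h3
            · rcases h4 with h4 | h4
              · exact absurd h4.symm (h12 _ _)
              · exact h4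
        · rintro ⟨h, h3, h4⟩
          exact ⟨Or.inr h, Or.inr h3, Or.inr h4⟩
      have g01 : ∀ F, F ⊆ D.image h1 ∪ D.image h2 →
          f ((insert e D).filter (fun e' => h1 e' ∈ insert (h2 e) F ∧ h2 e' ∈ insert (h2 e) F)) =
          f (D.filter (fun e' => h1 e' ∈ F ∧ h2 e' ∈ F)) := by
        intro F hF
        congr 1
        ext e'
        simp only [Finset.mem_filter, Finset.mem_insert]
        constructor
        · rintro ⟨h | h, h3, h4⟩
          · exfalso
            rw [h] at h3
            rcases h3 with h3 | h3
            · exact h12 _ _ h3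
            · exact ha (Finset.mem_insert_of_mem (hF h3))
          · refine ⟨h, ?_, ?_⟩
            · rcases h3 with h3 | h3
              · exact absurd h3 (h12 _ _)
              · exact h3
            · rcases h4 with h4 | h4
              · exact absurd h4 (hne2 e' h)
              · exact h4
        · rintro ⟨h, h3, h4⟩
          exact ⟨Or.inr h, Or.inr h3, Or.inr h4⟩
      have g00 : ∀ F, F ⊆ D.image h1 ∪ D.image h2 →
          f ((insert e D).filter (fun e' => h1 e' ∈ F ∧ h2 e' ∈ F)) =
          f (D.filter (fun e' => h1 e' ∈ F ∧ h2 e' ∈ F)) := by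
        intro F hF
        congr 1
        ext e'
        simp only [Finset.mem_filter, Finset.mem_insert]
        constructor
        · rintro ⟨h | h, h3, h4⟩
          · exfalso
            rw [h] at h4
            exact hb (hF h4)
          · exact ⟨h, h3, h4⟩
        · rintro ⟨h, h3, h4⟩
          exact ⟨Or.inr h, h3, h4⟩
      rw [Ex_congr g11, Ex_congr g10, Ex_congr g01, Ex_congr g00]
      ring
  rw [← main D f]
  apply Ex_local
  · intro z hz
    rcases Finset.mem_union.mp hz with h | h
    · obtain ⟨e, he, rfl⟩ := Finset.mem_image.mp h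
      exact (hS e he).1
    · obtain ⟨e, he, rfl⟩ := Finset.mem_image.mp h
      exact (hS e he).2
  · intro F _
    congr 1
    ext e
    simp only [Finset.mem_filter, Finset.mem_inter, Finset.mem_union]
    constructor
    · rintro ⟨h, h3, h4⟩
      exact ⟨h, ⟨h3, Or.inl (Finset.mem_image_of_mem _ h)⟩, h4, Or.inr (Finset.mem_image_of_mem _ h)⟩
    · rintro ⟨h, h3, h4⟩
      exact ⟨h, h3.1, h4.1⟩

/-- first half-edge -/
def he1 (e : Edg) : Vtx × Fin 4 := (src e, if e.2.2 then 0 else 1)
/-- second half-edge -/
def he2 (e : Edg) : Vtx × Fin 4 := (tgt e, if e.2.2 then 2 else 3)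

theorem he1_inj : Function.Injective he1 := by
  rintro ⟨x, y, b⟩ ⟨x', y', b'⟩ h
  cases b <;> cases b' <;> simp [he1] at h ⊢ <;> exact h

theorem he2_inj : Function.Injective he2 := by
  rintro ⟨x, y, b⟩ ⟨x', y', b'⟩ h
  cases b <;> cases b' <;> simp [he2] at h ⊢ <;> exact h

theorem he12 (e e' : Edg) : he1 e ≠ he2 e' := by
  obtain ⟨x, y, b⟩ := e
  obtain ⟨x', y', b'⟩ := e'
  intro h
  have h2 := congrArg Prod.snd h
  cases b <;> cases b' <;> simp [he1, he2] at h2

theorem boxE_ends {n : ℕ} {e : Edg} (he : e ∈ boxE n) : src e ∈ bxV n ∧ tgt e ∈ bxV n := by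
  obtain ⟨x, y, b⟩ := e
  unfold boxE at he
  unfold bxV
  cases b
  · rw [mem_RE_false] at he
    simp only [src_mk, tgt_false, Finset.mem_product, Finset.mem_Icc]
    omega
  · rw [mem_RE_true] at he
    simp only [src_mk, tgt_true, Finset.mem_product, Finset.mem_Icc]
    omega

/-- **Job PROD** -/
theorem prod : S_Prod := by
  classical
  intro r n B _ _
  rw [Ev_eq_Ex r _ (Finset.nodup_toList _), Finset.toList_toFinset]
  unfold arm Pr
  rw [← Ex_pairs r he1 he2 he1_inj he2_inj he12 (boxE n)
    (bxV n ×ˢ (Finset.univ : Finset (Fin 4))) (fun e he => ?_) (fun F => ind (Arm n F))]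
  · apply Ex_congr
    intro F _
    apply ind_congr
    unfold ArmC Arm
    have : opn (conf (bxV n).toList B F) ∩ ↑(boxE n) =
        (↑((boxE n).filter (fun e => he1 e ∈ F ∧ he2 e ∈ F)) : Set Edg) ∩ ↑(boxE n) := by
      ext e
      simp only [Set.mem_inter_iff, Finset.mem_coe, Finset.mem_filter]
      constructor
      · rintro ⟨h1, h2⟩
        obtain ⟨k1, k2⟩ := h1
        obtain ⟨l1, l2⟩ := boxE_ends h2
        unfold conf at k1 k2
        rw [if_pos (Finset.mem_toList.mpr l1)] at k1
        rw [if_pos (Finset.mem_toList.mpr l2)] at k2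
        exact ⟨⟨h2, (Finset.mem_filter.mp k1).2, (Finset.mem_filter.mp k2).2⟩, h2⟩
      · rintro ⟨⟨-, h3, h4⟩, h2⟩
        obtain ⟨l1, l2⟩ := boxE_ends h2
        refine ⟨⟨?_, ?_⟩, h2⟩
        · unfold conf
          rw [if_pos (Finset.mem_toList.mpr l1)]
          exact Finset.mem_filter.mpr ⟨Finset.mem_univ _, h3⟩
        · unfold conf
          rw [if_pos (Finset.mem_toList.mpr l2)]
          exact Finset.mem_filter.mpr ⟨Finset.mem_univ _, h4⟩
    rw [this]
  · obtain ⟨l1, l2⟩ := boxE_ends he
    exact ⟨Finset.mem_product.mpr ⟨l1, Finset.mem_univ _⟩,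
      Finset.mem_product.mpr ⟨l2, Finset.mem_univ _⟩⟩

end Q137.BN
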